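import Pool.Agent.N493.PC5
import Pool.Agent.Y627.PT.Eta

set_option autoImplicit false

/-!
# Eta-quotients modulo 2 against finite automata in all bases and Mahler functions (MP_a3366f_nt)

Let `F_1, …, F_k` be arbitrary eta-quotients with coefficients `a_j(n)`, `m_1, …, m_k ≥ 1`, `M ≥ 1`,
`y_1, …, y_l` power series over `F_2` which satisfy Mahler equations
`∑_{i ≤ N} A_i(X) y(X ^ (g ^ i)) = 0` with polynomials `A_i`, not all zero, in arbitrary and possibly
different bases `g ≥ 2`, `𝓖` a finite set of bases `≥ 2` and `Q ≥ 0`. There is a constant `C`,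
depending only on these data, such that the following dichotomy holds for all `K`, `ρ` and all
coefficients `c`, `d` in `F_2`. Put

  `w(n) = ∑_j ∑_{i < K} c_{j,i} a_j(m_j n + i)` modulo 2, `n ≡ ρ (mod M)`.

Either `w(n)` is even for all `n ≥ C K`, `n ≡ ρ (mod M)`, or, for all sums

  `W(n) = w(n) + ∑_j ∑_{i < K} d_{j,i} (coefficient of y_j at n + i) + ∑_z u_z(n + t_z)` modulo 2,

in which the `u_z` are arbitrarily many sequences, each computed by a finite automaton with at most
`Q` states which reads the digits of its argument in a base of `𝓖` (in one of the two directions;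
different `u_z` may use different bases), `t_z < K`, both values are taken by `W` on the
`n ≡ ρ (mod M)` in every interval `[A, C (A + K)]`.

There is no condition on the exponents of the eta-quotients. In particular a combination of
coefficients of eta-quotients modulo 2 which is a sum of automatic sequences in arbitrary bases and of
Mahler sequences is eventually even.

Examples: `F = 1 / f_1 ^ t`, `t` odd: `p_t` takes odd values on every class `n ≡ ρ (mod M)` infinitely
often (starting file `PatternsOnAllProgressions`), so on every class every automaton with at most `Q`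
states, in every base of `𝓖`, and every sum modulo 2 of the outputs of such automata, predicts the
parity of the number `p_t(n)` of `t`-multipartitions wrongly for some `n` and correctly for some `n` in
every interval `[A, C (A + 1)]`; the same for the sums `∑_t c_t p_t(n)` of finitely many such functions
whenever they are not eventually even.

Method. (1) Elimination: if a finite family of series is closed in base `g` (each is a combination over
`F_2(X)` of the series in `X ^ g`), the combinations with polynomial coefficients of degree `≤ h` are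
annihilated by operators `∑ b_m(X) (X → X ^ m)`, `m` a power of `g`, with coefficients of degree
`O(h)` and `b_1 ≠ 0` (a linear system; section operators). Closed families stay closed under
`X → X ^ m`, so that the bases can be eliminated one after the other by composition of operators.
(2) All sections of eta-quotients are `X ^ (-s / 24)` times functions algebraic over `F_2(D)`,
`D = q ∏ (1 - q ^ n) ^ 24` modulo 2 (starting file `EtaQuotients`), and so are their images under
`X → X ^ m`. (3) Nonvanishing: by a linear change over `F_2` inside each exponent class modulo 1 the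
modular functions and the constant 1 are replaced by functions of pairwise distinct orders (fractional
exponents included), those of the functions other than 1 being different from 0; in the part of
`∑ b_m(X) V(X ^ m) G(X ^ m)` of one exponent the orders are, up to a common shift, the products of
`m` and the order of `G`, and the smallest of them is attained once. (4) Liouville relative to
`F_2(q, D)`: transcendence measure of the starting files.
-/

namespace Pool.Agent.Results.MP_a3366f_nt.AutomataAndMahlerFunctions

open PowerSeries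

/-- `f_d = ∏_{i ≥ 1} (1 - q ^ (d i))`: Mathlib's series `pentagonalSeries ℤ = ∏_{i ≥ 1} (1 - q ^ i)`
in the variable `q ^ d` -/
noncomputable def f (d : ℕ) : ℤ⟦X⟧ :=
  PowerSeries.mk fun n => if d ∣ n then coeff (n / d) (pentagonalSeries ℤ) else 0

/-- `F = ∏_{d ∈ D} f_d ^ (u_d - v_d)`, an eta-quotient -/
def IsEtaQuotient (F : ℤ⟦X⟧) : Prop :=
  ∃ (D : Finset ℕ) (u v : ℕ → ℕ), 0 ∉ D ∧ F * ∏ d ∈ D, f d ^ v d = ∏ d ∈ D, f d ^ u d

/-- `y` satisfies an equation `∑_{i ≤ N} a_i(X) y(X ^ (g ^ i)) = 0` for some `g ≥ 2`, where the `a_i`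
are polynomials, not all zero -/
def IsMahler (y : (ZMod 2)⟦X⟧) : Prop :=
  ∃ (g N : ℕ) (a : ℕ → Polynomial (ZMod 2)), 2 ≤ g ∧ (∃ i ≤ N, a i ≠ 0) ∧
    ∑ i ∈ Finset.range (N + 1), (a i : (ZMod 2)⟦X⟧) *
      (PowerSeries.mk fun n => if g ^ i ∣ n then coeff (n / g ^ i) y else 0) = 0

/-- `u(n)` is computed by a finite automaton with at most `Q` states (transition function `δ`, initial
state `q`, output function `h`) which reads the digits of `n` in base `g` (`Nat.digits g n`, least
significant digit first, empty for `n = 0`), starting from the least significant one or starting from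
the most significant one -/
def Automatic (g Q : ℕ) (u : ℕ → ZMod 2) : Prop :=
  ∃ (s : ℕ) (δ : Fin s → ℕ → Fin s) (q : Fin s) (h : Fin s → ZMod 2), s ≤ Q ∧
    ((∀ n, u n = h ((Nat.digits g n).foldl δ q)) ∨
      (∀ n, u n = h ((Nat.digits g n).reverse.foldl δ q)))

theorem result (k : ℕ) (F : Fin k → ℤ⟦X⟧) (hF : ∀ j, IsEtaQuotient (F j))
    (m : Fin k → ℕ) (hm : ∀ j, 0 < m j) (l : ℕ) (y : Fin l → (ZMod 2)⟦X⟧)
    (hy : ∀ j, IsMahler (y j)) (𝓖 : Finset ℕ) (h𝓖 : ∀ g ∈ 𝓖, 2 ≤ g) (M : ℕ) (hM : 0 < M) (Q : ℕ) :
    ∃ C : ℕ, ∀ (K : ℕ) (c : Fin k → ℕ → ZMod 2) (d : Fin l → ℕ → ZMod 2) (ρ : ℕ),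
      (∀ n, C * K ≤ n → n ≡ ρ [MOD M] →
        ∑ j, ∑ i ∈ Finset.range K, c j i * ((coeff (m j * n + i) (F j) : ℤ) : ZMod 2) = 0) ∨
      ∀ (L : ℕ) (u : Fin L → ℕ → ZMod 2) (t : Fin L → ℕ),
        (∀ z, ∃ g ∈ 𝓖, Automatic g Q (u z)) → (∀ z, t z < K) →
      ∀ (κ : ZMod 2) (A : ℕ), ∃ n, A ≤ n ∧ n ≤ C * (A + K) ∧ n ≡ ρ [MOD M] ∧
        ∑ j, ∑ i ∈ Finset.range K, c j i * ((coeff (m j * n + i) (F j) : ℤ) : ZMod 2) +
          ∑ j, ∑ i ∈ Finset.range K, d j i * coeff (n + i) (y j) +
          ∑ z, u z (n + t z) = κ := by
  have hS : ∀ j, ∃ s : ℤ,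
      Pool.Agent.Y627.PT.Sec ((F j).map (Int.castRingHom (ZMod 2))) s := by
    intro j
    obtain ⟨D, u, v, hD, hrel⟩ := hF j
    exact ⟨_, Pool.Agent.Y627.PT.sec_eta D u v hD (F j) hrel⟩
  choose s hs using hS
  obtain ⟨C, hC⟩ := Pool.Agent.N493.PB.main_all
    (fun j => (F j).map (Int.castRingHom (ZMod 2))) s hs m hm l y hy 𝓖 h𝓖 M hM Q
  refine ⟨C, fun K c d ρ => ?_⟩
  by_cases h : ∀ n, C * K ≤ n → n ≡ ρ [MOD M] →
      ∑ j, ∑ i ∈ Finset.range K, c j i * ((coeff (m j * n + i) (F j) : ℤ) : ZMod 2) = 0
  · exact Or.inl h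
  · right
    intro L u t hu ht κ A
    push Not at h
    obtain ⟨n, h1, h2, h3⟩ := h
    obtain ⟨n', h1', h2', h3', h4'⟩ := hC K c d ρ ⟨n, h1, h2, h3⟩ L u t hu ht κ A
    exact ⟨n', h1', h2', h3', h4'⟩

end Pool.Agent.Results.MP_a3366f_nt.AutomataAndMahlerFunctions
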