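import Pool.Agent.N493.PD2
import Pool.Agent.H413R3.Part.Pt

set_option autoImplicit false

/-!
# Errors of bounded-memory predictors of the parity of the `t`-multipartition numbers (MP_a3366f_nt)

Let `t` be odd and let `p_t(n)` be the number of `t`-multipartitions of `n`. If the density in the
question is `1 / 2`, then a simple rule should predict the parity of `p_t(n)` wrongly about as often as
correctly. We consider the rules which read the binary digits of `n` one after the other, from the
lowest or from the highest digit, with a memory of `Q` states; what is done with a digit may depend on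
its place in an arbitrary way. (Formally: for every `k` all that matters of the `k` lowest digits, once
the others are given, is one of `Q` states, or all that matters of the others, once the `k` lowest
digits are given, is one of `Q` states. The outputs of finite automata with `Q'` states in base
`2 ^ j` are of this kind, with `Q = 2 ^ (j - 1) Q'`.)

For all `b, L, R, Q, K` there is `X` such that for all `x ≥ X`, every nonzero pattern `c` of length
`≤ L + 1`, every Boolean function `Φ` of the outputs `v_1(n), …, v_R(n)` of `R` such computations (they
and `Φ` may depend on `x`), every residue class `ρ` modulo `2 ^ b` and both values `κ`, the equation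
`∑ c_i p_t(n + i) + Φ(v_1(n), …, v_R(n)) = κ` modulo 2 has at least
`√x (log log x) ^ K / log x` solutions `n ≤ x` in the class. For `L = 0`: every predictor of the parity
of `p_t(n)` of this kind is wrong, and is right, at least that often in each class.

The starting file `PatternCounts` is the case without a predictor, and is used: it counts, for a pattern
of length `2 ^ k + L + 1`, the solutions `n` divisible by `2 ^ k`. If `2 ^ k` is large in terms of `b`,
`Q`, `R`, then two of the residues `r, r'` modulo `2 ^ k` in the class `ρ` modulo `2 ^ b` have the same
states, so that the predictor takes the same values at `2 ^ k n + r` and `2 ^ k n + r'` for all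
`n ≥ 1`, while the values of the pattern there differ for many `n`: one of the two places is a solution.
The threshold `X` depends on the pair `r, r'` and on `c` only, that is, on finitely many patterns. The
file `AutomaticSequences` of the starting repository and `AutomataAndMahlerFunctions` give one error in
each interval `[A, C (A + 1)]`, that is `c log x` errors, for automata with fixed rules.
-/

namespace Pool.Agent.Results.MP_a3366f_nt.PredictorErrors

open PowerSeries

/-- the number of `t`-multipartitions of `n`: the coefficient of `q ^ n` in `∏ 1 / (1 - q ^ i) ^ t` -/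
def multipartitions (t n : ℕ) : ℕ :=
  ∑ x ∈ Finset.Nat.antidiagonalTuple t n, ∏ i, Fintype.card (Nat.Partition (x i))

/-- `u(n)` can be computed in one pass over the binary digits of `n` with `Q` memory states: either for
every `k` the value `u(2 ^ k n + r)` (`n ≥ 1`, `r < 2 ^ k`) depends only on `n` and on one of `Q` states
which is determined by `r` (the digits are read from the lowest one), or for every `k` it depends only
on `r` and on one of `Q` states which is determined by `n` (from the highest one) -/
def OnePass (Q : ℕ) (u : ℕ → ZMod 2) : Prop :=
  (∀ k : ℕ, ∃ (s : ℕ → Fin Q) (h : Fin Q → ℕ → ZMod 2), ∀ n r : ℕ, 1 ≤ n → r < 2 ^ k →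
    u (2 ^ k * n + r) = h (s r) n) ∨
  (∀ k : ℕ, ∃ (s : ℕ → Fin Q) (h : Fin Q → ℕ → ZMod 2), ∀ n r : ℕ, 1 ≤ n → r < 2 ^ k →
    u (2 ^ k * n + r) = h (s n) r)

theorem result (t : ℕ) (ht : Odd t) (b L R Q K : ℕ) :
    ∃ X : ℕ, ∀ x : ℕ, X ≤ x → ∀ c : Fin (L + 1) → ZMod 2, c ≠ 0 →
      ∀ v : Fin R → ℕ → ZMod 2, (∀ z, OnePass Q (v z)) → ∀ Φ : (Fin R → ZMod 2) → ZMod 2,
      ∀ (ρ : ℕ) (κ : ZMod 2),
        √x * Real.log (Real.log x) ^ K / Real.log x ≤
          (((Finset.range (x + 1)).filter fun n => n % 2 ^ b = ρ % 2 ^ b ∧
            ∑ i : Fin (L + 1), c i * (multipartitions t (n + i) : ZMod 2) +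
              Φ (fun z => v z n) = κ).card : ℝ) := by
  obtain ⟨X, hX⟩ := Pool.Agent.N493.PD.main t b L R Q K (Nat.odd_iff.1 ht)
  refine ⟨X, fun x hx c hc v hv Φ ρ κ => ?_⟩
  have h := hX c hc v hv Φ ρ κ x hx
  have e : (((Finset.range (x + 1)).filter fun n => n % 2 ^ b = ρ % 2 ^ b ∧
      Pool.Agent.R836.PP.pat c (Pool.Agent.N493.PD.Ft t) n + Φ (fun z => v z n) = κ)) =
      (Finset.range (x + 1)).filter fun n => n % 2 ^ b = ρ % 2 ^ b ∧
        ∑ i : Fin (L + 1), c i * (multipartitions t (n + i) : ZMod 2) +
          Φ (fun z => v z n) = κ := by
    ext n
    unfold Pool.Agent.R836.PP.pat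
    simp only [Finset.mem_filter, Pool.Agent.H413R3.Part.coeff_pow_eq]
    rfl
  rw [e] at h
  exact h

end Pool.Agent.Results.MP_a3366f_nt.PredictorErrors
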