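import Pool.Agent.N493.PF9

set_option autoImplicit false

/-!
# Odd density 1/2 after a sparse random change of the set of parts (MP_a3366f_nt)

Let `S` be a random set of positive integers such that the events `s ∈ S` are independent and
`κ s ^ (-c) ≤ P(s ∈ S) ≤ 1 - κ s ^ (-c)` for some `κ > 0` and some `c < 1`. For instance `S` may be the
set of all positive integers from which each `s` is removed with probability `s ^ (-c) / 2`; then only
about `x ^ (1 - c)` of the parts up to `x` are removed. Let `G` be a power series with integer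
coefficients and odd constant term. Almost surely, for all odd `t`, the coefficients of
`G(X) ∏_{s ∈ S} (1 - X ^ s) ^ (-t)` have odd density `1 / 2`, and more generally all blocks of parities
of length `L` occur with density `2 ^ (-L)`, also relative to any given set `B` of exponents. For
`G = 1` these are the numbers of the `t`-multipartitions with all parts in `S`.

Consequently, for every `ε > 0` there is a set `R` with `∑_{r ∈ R} r ^ (-ε) < ∞` (so `R` has `O(x ^ ε)`
elements up to `x`) such that for every odd `t` the number of the `t`-multipartitions of `n` without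
parts in `R` is odd with density exactly `1 / 2` (`G = 1`); and with `G = ∏ (1 - X ^ i) ^ (-t')`, for
every `t'`, the number of the `t'`-multipartitions in which the parts from `R` may have `t` further
colours is odd with density `1 / 2`.

Method. Let `a(n)` be the parity of the coefficient and `e(n) = (-1) ^ a(n)`. If `n / 2 < s ≤ n`, then
a change of the event `s ∈ S` adds `a(n - s)` to `a(n)`, and `a(n)` does not depend on `s ∈ S` for
`s > n`. So, for `m < n`, the expectation of `e(n) e(m)` is at most that of the product of the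
`1 - 2 q(n)` over the `j < min(n - m, n / 2)` with `a(j) = 1`, where `q(n) = κ n ^ (-c)`. It remains to
find many `j < h` with `a(j) = 1` (`h = N ^ (1 - η)`), although `c` may be close to 1. Let `Y` be the
number of such `j < l`. In a window `[S, S + 2 l)` the configurations of the coins in its first half for
which there are less than `Y / 2` such `j` in the window form an independent set of the cube (one change
of a coin adds `a` on `[0, l)`, shifted), hence they have probability at most
`(1 + ∏ |1 - 2 P(s ∈ S)|) / 2`, which is at most `3 / 4` if `l q(h) ≥ 1`. The version for Laplace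
transforms, `Λ(h, t) ≤ exp (-k / 8) + Λ(l, k t / 8)` for `l + 2 l k ≤ h`, is iterated a bounded number of
times with `l` of the order `h ^ c`: one gains exponents `1 - c ^ r → 1`. This bounds the second moments
of `∑_{n < N} e(n)` by `N ^ (2 - η)`.
-/

namespace Pool.Agent.Results.MP_a3366f_nt.SparseRandomParts

open Filter Topology MeasureTheory ProbabilityTheory PowerSeries

/-- the number of the partitions of `n` all of whose parts are in `S` -/
noncomputable def partitionsIn (S : Set ℕ) (n : ℕ) : ℕ :=
  Nat.card {Q : Nat.Partition n // ∀ i ∈ Q.parts, i ∈ S}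

/-- the coefficient of `X ^ n` in `G(X) (∑ partitionsIn S k X ^ k) ^ t`; for `G = 1` the number of the
`t`-multipartitions of `n` with all parts in `S` -/
noncomputable def coefficient (G : PowerSeries ℤ) (S : Set ℕ) (t n : ℕ) : ℤ :=
  coeff n (G * (PowerSeries.mk fun k => (partitionsIn S k : ℤ)) ^ t)

/-- among the `n < N` in `B`, a block `w` of length `L` is equal to the parities of
`A(n), …, A(n + L - 1)` for `2 ^ (-L) #(B ∩ [0, N)) + o(N)` of the `n`, for all `L` and `w` -/
def Equidistributed (B : Set ℕ) (A : ℕ → ℤ) : Prop :=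
  ∀ (L : ℕ) (w : ℕ → ZMod 2), Tendsto (fun N : ℕ =>
    (({n : ℕ | n < N ∧ n ∈ B ∧ ∀ i < L, (A (n + i) : ZMod 2) = w i}.ncard : ℝ) -
      ({n : ℕ | n < N ∧ n ∈ B}.ncard : ℝ) / 2 ^ L) / N) atTop (𝓝 0)

theorem result :
    (∀ (Ω : Type) [MeasurableSpace Ω] (P : Measure Ω) [IsProbabilityMeasure P] (S : Ω → Set ℕ),
      (∀ s, MeasurableSet {ω | s ∈ S ω}) → iIndepSet (fun s => {ω | s ∈ S ω}) P →
      ∀ c κ : ℝ, c < 1 → 0 < κ →
      (∀ s : ℕ, 1 ≤ s → κ * (s : ℝ) ^ (-c) ≤ P.real {ω | s ∈ S ω} ∧
        κ * (s : ℝ) ^ (-c) ≤ P.real {ω | s ∉ S ω}) →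
      ∀ G : PowerSeries ℤ, Odd (constantCoeff G) → ∀ B : Set ℕ,
      ∀ᵐ ω ∂P, ∀ t : ℕ, Odd t → Equidistributed B (coefficient G (S ω) t)) ∧
    (∀ ε : ℝ, 0 < ε → ∀ G : ℕ → PowerSeries ℤ, (∀ j, Odd (constantCoeff (G j))) →
      ∀ B : ℕ → Set ℕ, ∃ R : Set ℕ, Summable (fun r : R => ((r : ℕ) : ℝ) ^ (-ε)) ∧
        ∀ j k t : ℕ, Odd t → Equidistributed (B k) (coefficient (G j) Rᶜ t) ∧
          Equidistributed (B k) (coefficient (G j) R t)) := by
  constructor
  · intro Ω _ P _ S hS hind c κ hc hκ h G hG B
    exact Pool.Agent.N493.PF.random P S hS hind hc hκ (fun s hs => (h s hs).1)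
      (fun s hs => (h s hs).2) hG B
  · intro ε hε G hG B
    exact Pool.Agent.N493.PF.exists_sparse hε hG B

end Pool.Agent.Results.MP_a3366f_nt.SparseRandomParts
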